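import Pool.Agent.W5h77.MR.Comp

/-!
# Independence of `ℓ` for cohomology with compact supports: smooth affine cubic hypersurfaces

Let `k` be a field, and let `H l i X = H^i_c(X, ℚ_ℓ)` for the primes `ℓ` different from the
characteristic; only the properties `IsCompact` are used. The following are equivalent:

1. for all affine schemes `X` of finite type over `k` (singular, reducible, non-reduced) the dimensions
of the `H^i_c(X, ℚ_ℓ)` do not depend on `ℓ`;
2. this holds for all open subschemes of the affine spaces `𝔸^n`;
3. this holds for the smooth affine hypersurfaces `u_0 t + u_1 f_1(x) + … + u_m f_m(x) = 1` in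
`𝔸^{n + m + 2}`, with the coordinates `t, x_1, …, x_n, u_0, …, u_m`, where the polynomials `f_j` have
degree at most two (so these are cubic hypersurfaces).

More precisely, if `Z` is the closed subscheme `f_1 = … = f_m = 0` of `𝔸^n` for polynomials `f_j` of any
degrees, then
`H^i_c(Z, ℚ_ℓ)` is isomorphic to `H^{i + 1 + 2m}_c` of the hypersurface, for all `i ≤ 2n` (and it
vanishes for `i > 2n`): a single group of the one is a single group of the other.

So there is no dévissage: the usual difficulty is that the dimensions are not additive in exact
sequences (only the Euler characteristic is). The point is that `𝔸^{n+1}` has no cohomology with compact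
supports in the degrees `≤ 2n + 1`, so that the closed subscheme `t = f_1 = … = f_m = 0` of `𝔸^{n+1}` has
the cohomology of its open complement, up to a shift by one.
-/

open CategoryTheory AlgebraicGeometry Pool.Agent.Y116.UV Pool.Agent.W5h77.CS

namespace Pool.Agent.Results.MP_c67f4f_ag.SmoothHypersurfaces

/-- **Independence of `ℓ` for the Betti numbers with compact supports of all affine varieties is
independence of `ℓ` for the open subschemes of the affine spaces, and for the smooth affine cubic
hypersurfaces `u_0 t + ∑ u_j f_j = 1`, where the `f_j` have degree at most two.** -/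
theorem result {k : Type} [Field k] {Λ : Type} {K : Λ → Type} [∀ l, Field (K l)]
    (H : ∀ l : Λ, ℤ → Sch k → ModuleCat.{0} (K l)) (hH : IsCompact H) :
    List.TFAE
      [∀ (A : Type) [CommRing A] [Algebra k A] [Algebra.FiniteType k A], Indep H (aff k A),
        ∀ (n : ℕ) (U : Sch k) (j : U ⟶ spc k n), IsOpenImmersion j.left → Indep H U,
        ∀ (n m : ℕ) (f : Fin m → MvPolynomial (Fin n) k), Quadr f → Indep H (ysch f)] ∧
    ∀ (n m : ℕ) (f : Fin m → MvPolynomial (Fin n) k), YSmooth f ∧
      ∀ (l : Λ) (i : ℤ), i ≤ 2 * n →
        Same H l i (van k (Set.range f)) (i + 1 + 2 * m) (ysch f) :=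
  ⟨indep_iff hH, fun _ _ f => ⟨smooth_ext f, fun l i hi => shift hH f l i hi⟩⟩

end Pool.Agent.Results.MP_c67f4f_ag.SmoothHypersurfaces
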